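import Pool.Agent.D0H56.MD.Defs

set_option autoImplicit false

namespace Pool.Agent.D0H37.MD

open Module

lemma mem_of_coprime {K : Type} [Field K] [NumberField K] (F : IntermediateField ℚ K) (x : K)
    (hx : x ≠ 0) (p N : ℕ) (h : Nat.Coprime p N) (h1 : x ^ p ∈ F) (h2 : x ^ N ∈ F) : x ∈ F := by
  have e : x = (x ^ p) ^ (Nat.gcdA p N) * (x ^ N) ^ (Nat.gcdB p N) := by
    rw [← zpow_natCast, ← zpow_natCast, ← zpow_mul, ← zpow_mul, ← zpow_add₀ hx]
    have := Nat.gcd_eq_gcd_ab p N
    rw [h.gcd_eq_one] at this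
    rw [← this]
    simp
  rw [e]
  exact mul_mem (zpow_mem h1 _) (zpow_mem h2 _)

lemma adj_le {K : Type} [Field K] [NumberField K] (x y : K) (N k : ℕ) :
    IntermediateField.adjoin ℚ {x ^ (N * k), y ^ (N * k)} ≤
      IntermediateField.adjoin ℚ {x ^ N, y ^ N} := by
  rw [IntermediateField.adjoin_le_iff]
  have h1 : x ^ N ∈ IntermediateField.adjoin ℚ {x ^ N, y ^ N} :=
    IntermediateField.subset_adjoin _ _ (by simp)
  have h2 : y ^ N ∈ IntermediateField.adjoin ℚ {x ^ N, y ^ N} :=
    IntermediateField.subset_adjoin _ _ (by simp)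
  intro z hz
  simp only [Set.mem_insert_iff, Set.mem_singleton_iff] at hz
  rcases hz with rfl | rfl
  · rw [pow_mul]; exact pow_mem h1 k
  · rw [pow_mul]; exact pow_mem h2 k

lemma two_mul_le {K : Type} [Field K] [NumberField K] (A B : IntermediateField ℚ K) (h : A ≤ B)
    (hne : A ≠ B) : 2 * finrank ℚ A ≤ finrank ℚ B := by
  obtain ⟨k, hk⟩ := IntermediateField.finrank_dvd_of_le_right h
  have hB : 0 < finrank ℚ B := finrank_pos
  rcases k with _ | _ | k
  · omega
  · exfalso; apply hne
    exact IntermediateField.eq_of_le_of_finrank_eq h (by omega)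
  · rw [hk]; nlinarith

theorem t_GOOD : Pool.Agent.D0H56.MD.S_GOOD := by
  classical
  intro K _ _ x y hx hy htop B hB
  have key : ∀ C : Finset ℕ, C ⊆ B → 2 ^ C.card * finrank ℚ
      (IntermediateField.adjoin ℚ {x ^ (∏ p ∈ C, p), y ^ (∏ p ∈ C, p)}) ≤ finrank ℚ K := by
    intro C
    induction C using Finset.induction_on with
    | empty =>
      intro _
      rw [Finset.card_empty, pow_zero, one_mul]
      exact Submodule.finrank_le (Subalgebra.toSubmodule (IntermediateField.adjoin ℚ
        {x ^ (∏ p ∈ (∅ : Finset ℕ), p), y ^ (∏ p ∈ (∅ : Finset ℕ), p)}).toSubalgebra)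
    | insert p C hp ih =>
      intro hC
      have ih' := ih (fun q hq => hC (Finset.mem_insert_of_mem hq))
      obtain ⟨hpp, hpt⟩ := hB p (hC (Finset.mem_insert_self _ _))
      have hcop : Nat.Coprime p (∏ q ∈ C, q) := by
        apply Nat.Coprime.prod_right
        intro q hq
        rw [Nat.coprime_primes hpp (hB q (hC (Finset.mem_insert_of_mem hq))).1]
        rintro rfl; exact hp hq
      rw [Finset.card_insert_of_notMem hp, Finset.prod_insert hp]
      have hle := adj_le x y (∏ q ∈ C, q) p
      have hle2 := adj_le x y p (∏ q ∈ C, q)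
      rw [mul_comm] at hle
      have hne : IntermediateField.adjoin ℚ {x ^ (p * ∏ q ∈ C, q), y ^ (p * ∏ q ∈ C, q)} ≠
          IntermediateField.adjoin ℚ {x ^ (∏ q ∈ C, q), y ^ (∏ q ∈ C, q)} := by
        intro heq
        rw [heq] at hle2
        apply hpt
        rw [eq_top_iff, ← htop, IntermediateField.adjoin_le_iff]
        have g1 : x ∈ IntermediateField.adjoin ℚ {x ^ p, y ^ p} :=
          mem_of_coprime _ x hx p _ hcop (IntermediateField.subset_adjoin _ _ (by simp))
            (hle2 (IntermediateField.subset_adjoin _ _ (by simp)))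
        have g2 : y ∈ IntermediateField.adjoin ℚ {x ^ p, y ^ p} :=
          mem_of_coprime _ y hy p _ hcop (IntermediateField.subset_adjoin _ _ (by simp))
            (hle2 (IntermediateField.subset_adjoin _ _ (by simp)))
        intro z hz
        simp only [Set.mem_insert_iff, Set.mem_singleton_iff] at hz
        rcases hz with rfl | rfl
        · exact g1
        · exact g2
      have := two_mul_le _ _ hle hne
      rw [pow_succ, mul_assoc]
      exact (Nat.mul_le_mul_left _ this).trans ih'
  refine le_trans ?_ (key B (Finset.Subset.refl _))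
  exact Nat.le_mul_of_pos_right _ finrank_pos

end Pool.Agent.D0H37.MD
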