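import Pool.Agent.D0H56.MD.Defs

set_option autoImplicit false

namespace Pool.Agent.D0H37.MD

open Real Filter Finset

/-- lower bound for the sum of the logarithms -/
lemma theta_P (X D : ℕ) (hX : 3000 ≤ X) (P : Finset ℕ)
    (hP : ∀ p ∈ P, p.Prime ∧ 3000 < p ∧ p ≤ X)
    (h2 : 2 ^ ((Finset.filter (fun p => p.Prime ∧ 3000 < p) (Finset.Icc 1 X)) \ P).card ≤ D) :
    (X : ℝ) * log 2 - log (X + 1) - 2 * √X * log X - log 4 * 3000 - (log D / log 2) * log X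
      ≤ ∑ p ∈ P, log (p : ℝ) := by
  classical
  set F := Finset.filter (fun p => p.Prime ∧ 3000 < p) (Finset.Icc 1 X) with hF
  have hPF : P ⊆ F := by
    intro p hp
    obtain ⟨h1, h2, h3⟩ := hP p hp
    simp only [hF, mem_filter, mem_Icc]
    exact ⟨⟨h1.one_lt.le, h3⟩, h1, h2⟩
  have e1 : ∑ p ∈ F \ P, log (p : ℝ) + ∑ p ∈ P, log (p : ℝ) = ∑ p ∈ F, log (p : ℝ) :=
    Finset.sum_sdiff hPF
  have e2 : ∑ p ∈ F \ P, log (p : ℝ) ≤ (F \ P).card * log X := by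
    rw [← nsmul_eq_mul]
    apply Finset.sum_le_card_nsmul
    intro p hp
    have : p ∈ F := (Finset.mem_sdiff.1 hp).1
    simp only [hF, mem_filter, mem_Icc] at this
    apply log_le_log
    · exact_mod_cast this.2.1.pos
    · exact_mod_cast this.1.2
  have e3 : ((F \ P).card : ℝ) ≤ log D / log 2 := by
    rw [le_div_iff₀ (log_pos one_lt_two)]
    have : ((2 : ℝ) ^ (F \ P).card) ≤ D := by exact_mod_cast h2
    have h := log_le_log (by positivity) this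
    rwa [log_pow] at h
  have e4 : (∑ p ∈ F, log (p : ℝ)) + Chebyshev.theta 3000 = Chebyshev.theta X := by
    have t1 : Chebyshev.theta X = ∑ p ∈ Finset.filter Nat.Prime (Ioc 0 X), log (p : ℝ) := by
      simp [Chebyshev.theta]
    have t2 : Chebyshev.theta 3000 = ∑ p ∈ Finset.filter Nat.Prime (Ioc 0 3000), log (p : ℝ) := by
      simp [Chebyshev.theta]
    rw [t1, t2, ← Finset.sum_filter_add_sum_filter_not (Finset.filter Nat.Prime (Ioc 0 X))
      (fun p => 3000 < p)]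
    congr 1
    · apply Finset.sum_congr _ fun _ _ => rfl
      ext p
      simp only [hF, mem_filter, mem_Icc, mem_Ioc]
      constructor
      · rintro ⟨⟨a, b⟩, c, d⟩; exact ⟨⟨⟨by omega, b⟩, c⟩, d⟩
      · rintro ⟨⟨⟨a, b⟩, c⟩, d⟩; exact ⟨⟨by omega, b⟩, c, d⟩
    · apply Finset.sum_congr _ fun _ _ => rfl
      ext p
      simp only [mem_filter, mem_Ioc]
      constructor
      · rintro ⟨⟨a, b⟩, c⟩; exact ⟨⟨⟨a, by omega⟩, c⟩, by omega⟩
      · rintro ⟨⟨⟨a, b⟩, c⟩, d⟩; exact ⟨⟨a, by omega⟩, c⟩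
  have e5 := Chebyshev.theta_ge X
  have e6 : Chebyshev.theta 3000 ≤ log 4 * 3000 := Chebyshev.theta_le_log4_mul_x (by norm_num)
  have e7 : 0 ≤ log (X : ℝ) := log_nonneg (by exact_mod_cast (by omega : 1 ≤ X))
  have e8 := mul_le_mul_of_nonneg_right e3 e7
  linarith

/-- the number of the elements of `P` -/
lemma card_P (X : ℕ) (P : Finset ℕ) (hP : ∀ p ∈ P, p.Prime ∧ 3000 < p ∧ p ≤ X) :
    (P.card : ℝ) * 8 ≤ ∑ p ∈ P, log (p : ℝ) := by
  rw [← nsmul_eq_mul]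
  apply Finset.card_nsmul_le_sum
  intro p hp
  have h1 : (3001 : ℝ) ≤ p := by exact_mod_cast (hP p hp).2.1
  rw [le_log_iff_exp_le (by linarith)]
  refine le_trans ?_ h1
  have : exp (8 : ℝ) = exp 1 ^ 8 := by rw [← exp_nat_mul]; norm_num
  rw [this]
  have h2 : exp 1 ^ 8 ≤ (2.7182818286 : ℝ) ^ 8 :=
    pow_le_pow_left₀ (exp_pos 1).le exp_one_lt_d9.le 8
  refine h2.trans (by norm_num)

lemma card_P' (X : ℕ) (P : Finset ℕ) (hP : ∀ p ∈ P, p.Prime ∧ 3000 < p ∧ p ≤ X) :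
    P.card ≤ X := by
  have : P ⊆ Finset.Icc 1 X := by
    intro p hp
    obtain ⟨h1, h2, h3⟩ := hP p hp
    exact mem_Icc.2 ⟨h1.one_lt.le, h3⟩
  simpa using Finset.card_le_card this

lemma sum_P (X : ℕ) (P : Finset ℕ) (hP : ∀ p ∈ P, p.Prime ∧ 3000 < p ∧ p ≤ X) :
    ∑ p ∈ P, (p : ℝ) ≤ (X : ℝ) * X := by
  have h1 : ∑ p ∈ P, (p : ℝ) ≤ P.card * (X : ℝ) := by
    rw [← nsmul_eq_mul]
    apply Finset.sum_le_card_nsmul
    intro p hp
    exact_mod_cast (hP p hp).2.2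
  refine h1.trans ?_
  have : (P.card : ℝ) ≤ X := by exact_mod_cast card_P' X P hP
  exact mul_le_mul_of_nonneg_right this (by positivity)

/-- facts for large `l` -/
lemma ev_l : ∀ᶠ l : ℝ in atTop, 100 ≤ l ∧ log (32 * l ^ 4) ≤ l / 8 := by
  refine (eventually_ge_atTop 100).and ?_
  have h1 : ∀ᶠ l : ℝ in atTop, log l ≤ (1 / 64) * l := by
    have := isLittleO_log_id_atTop.bound (show (0 : ℝ) < 1 / 64 by norm_num)
    filter_upwards [this, eventually_ge_atTop 1] with l hl h1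
    simpa [abs_of_nonneg (log_nonneg h1), abs_of_nonneg (by linarith : (0 : ℝ) ≤ l)] using hl
  have h2 : ∀ᶠ l : ℝ in atTop, log 32 ≤ (1 / 16) * l := by
    have : Tendsto (fun l : ℝ => (1 / 16) * l) atTop atTop :=
      tendsto_id.const_mul_atTop (by norm_num)
    exact this.eventually_ge_atTop _
  filter_upwards [h1, h2, eventually_ge_atTop 1] with l a b c
  rw [log_mul (by norm_num) (by positivity), log_pow]
  push_cast
  linarith

/-- the bound for `θ` in terms of `l = log D` -/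
lemma theta_l (l : ℝ) (h : 100 ≤ l) (hl : log (32 * l ^ 4) ≤ l / 8) (X : ℕ) (hX : X = ⌊l ^ 4⌋₊) :
    3000 ≤ X ∧ (X : ℝ) ≤ l ^ 4 ∧
    l ^ 4 / 2 ≤ (X : ℝ) * log 2 - log (X + 1) - 2 * √X * log X - log 4 * 3000 -
      (l / log 2) * log X := by
  have hp : (0 : ℝ) ≤ l ^ 4 := by positivity
  have hX1 : (X : ℝ) ≤ l ^ 4 := by rw [hX]; exact Nat.floor_le hp
  have hX2 : l ^ 4 - 1 ≤ X := by rw [hX]; exact (Nat.sub_one_lt_floor _).le
  have h4 : (100 : ℝ) ^ 4 ≤ l ^ 4 := pow_le_pow_left₀ (by norm_num) h 4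
  have hX3 : (3000 : ℝ) ≤ X := by norm_num at h4; linarith
  have hX3' : 3000 ≤ X := by exact_mod_cast hX3
  have hlX : log (X : ℝ) ≤ l / 8 := by
    refine le_trans (log_le_log (by linarith) ?_) hl
    linarith
  have hlX0 : 0 ≤ log (X : ℝ) := log_nonneg (by linarith)
  have hlX1 : log ((X : ℝ) + 1) ≤ l / 8 := by
    refine le_trans (log_le_log (by linarith) ?_) hl
    norm_num at h4; linarith
  have hs : √(X : ℝ) ≤ l ^ 2 := by
    rw [show l ^ 2 = √(l ^ 4) by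
      rw [show l ^ 4 = (l ^ 2) ^ 2 by ring, sqrt_sq (by positivity)]]
    exact sqrt_le_sqrt hX1
  have hs2 : 2 * √(X : ℝ) * log X ≤ 2 * l ^ 2 * (l / 8) := by
    apply mul_le_mul (by linarith) hlX hlX0 (by positivity)
  have hlog2 : (0.69 : ℝ) ≤ log 2 := by linarith [log_two_gt_d9]
  have hlog2' : log 2 ≤ (0.7 : ℝ) := by linarith [log_two_lt_d9]
  have hlog4 : log 4 ≤ (1.4 : ℝ) := by
    rw [show (4 : ℝ) = 2 ^ 2 by norm_num, log_pow]; push_cast; linarith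
  have hd : l / log 2 ≤ 2 * l := by
    rw [div_le_iff₀ (by linarith)]
    nlinarith
  have hd2 : (l / log 2) * log X ≤ (2 * l) * (l / 8) :=
    mul_le_mul hd hlX hlX0 (by linarith)
  have hm : (l ^ 4 - 1) * 0.69 ≤ (X : ℝ) * log 2 := by
    apply mul_le_mul hX2 hlog2 (by norm_num) (by positivity)
  refine ⟨hX3', hX1, ?_⟩
  have h3 : l ^ 3 * 100 ≤ l ^ 4 := by
    have : l ^ 3 * 100 ≤ l ^ 3 * l := mul_le_mul_of_nonneg_left h (by positivity)
    calc l ^ 3 * 100 ≤ l ^ 3 * l := this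
      _ = l ^ 4 := by ring
  have h2 : l ^ 2 * 10000 ≤ l ^ 4 := by
    have : l ^ 2 * (100 * 100) ≤ l ^ 2 * (l * l) :=
      mul_le_mul_of_nonneg_left (mul_le_mul h h (by norm_num) (by linarith)) (by positivity)
    calc l ^ 2 * 10000 ≤ l ^ 2 * (l * l) := by linarith
      _ = l ^ 4 := by ring
  have h1 : l ≤ l ^ 4 / 1000000 := by
    have : l * (100 * 100 * 100) ≤ l * (l * l * l) :=
      mul_le_mul_of_nonneg_left (mul_le_mul (mul_le_mul h h (by norm_num) (by linarith)) h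
        (by norm_num) (by positivity)) (by linarith)
    have e : l * (l * l * l) = l ^ 4 := by ring
    linarith
  have e2 : 2 * l ^ 2 * (l / 8) = l ^ 3 / 4 := by ring
  have e3 : (2 * l) * (l / 8) = l ^ 2 / 4 := by ring
  norm_num at h4
  linarith

/-- the main inequality -/
lemma main_l (l S c T N Y : ℝ) (h : 100 ≤ l) (hl : log (32 * l ^ 4) ≤ l / 8) (hS : l ^ 4 / 2 ≤ S)
    (hc0 : 0 ≤ c) (hc : c * 8 ≤ S) (hc' : c ≤ l ^ 4) (hT : l ≤ T) (hT' : T ≤ l + 1)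
    (hN : log N ≤ 2 * l) (hY : Y ≤ 1) :
    (T ^ 2 + c) * (l + log (T ^ 2 + c)) + T ^ 3 * log N + Y < T * (S - 16 * l) := by
  have hTp : 0 < T := by linarith
  have hT2 : T ^ 2 ≤ 2 * l ^ 2 := by nlinarith
  have hT3 : T ^ 3 ≤ 2 * l ^ 3 := by
    have : T ^ 3 ≤ (1.1 * l) ^ 3 := pow_le_pow_left₀ (by linarith) (by linarith) 3
    have e : (1.1 * l) ^ 3 = 1.331 * l ^ 3 := by ring
    have : 0 ≤ l ^ 3 := by positivity
    linarith
  have hA : T ^ 2 + c ≤ 32 * l ^ 4 := by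
    have : l ^ 2 * 1 ≤ l ^ 2 * l ^ 2 := mul_le_mul_of_nonneg_left (by nlinarith) (by positivity)
    nlinarith
  have hA0 : 0 < T ^ 2 + c := by positivity
  have hlA : log (T ^ 2 + c) ≤ l / 8 := (log_le_log hA0 hA).trans hl
  have h1 : (T ^ 2 + c) * (l + log (T ^ 2 + c)) ≤ (2 * l ^ 2 + S / 8) * (9 / 8 * l) :=
    le_trans (mul_le_mul_of_nonneg_left (by linarith) hA0.le)
      (mul_le_mul_of_nonneg_right (by linarith) (by linarith))
  have h2 : T ^ 3 * log N ≤ 2 * l ^ 3 * (2 * l) :=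
    le_trans (mul_le_mul_of_nonneg_left hN (by positivity))
      (mul_le_mul_of_nonneg_right hT3 (by linarith))
  have h4 : (100 : ℝ) ^ 3 * l ≤ l ^ 4 := by
    have : (100 : ℝ) ^ 3 ≤ l ^ 3 := pow_le_pow_left₀ (by norm_num) h 3
    calc (100 : ℝ) ^ 3 * l ≤ l ^ 3 * l := mul_le_mul_of_nonneg_right this (by linarith)
      _ = l ^ 4 := by ring
  have h3 : l * (S - 16 * l) ≤ T * (S - 16 * l) :=
    mul_le_mul_of_nonneg_right hT (by linarith)
  have h5 : l ^ 4 / 2 * l ≤ S * l := mul_le_mul_of_nonneg_right hS (by linarith)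
  have h6 : 100 * l ^ 4 ≤ l ^ 5 := by
    calc 100 * l ^ 4 ≤ l * l ^ 4 := mul_le_mul_of_nonneg_right h (by positivity)
      _ = l ^ 5 := by ring
  have h7 : 100 * l ^ 3 ≤ l ^ 4 := by
    calc 100 * l ^ 3 ≤ l * l ^ 3 := mul_le_mul_of_nonneg_right h (by positivity)
      _ = l ^ 4 := by ring
  have h8 : 100 * l ^ 2 ≤ l ^ 3 := by
    calc 100 * l ^ 2 ≤ l * l ^ 2 := mul_le_mul_of_nonneg_right h (by positivity)
      _ = l ^ 3 := by ring
  have e1 : (2 * l ^ 2 + S / 8) * (9 / 8 * l) = 9 / 4 * l ^ 3 + 9 / 64 * (S * l) := by ring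
  have e2 : 2 * l ^ 3 * (2 * l) = 4 * l ^ 4 := by ring
  have e3 : l ^ 4 / 2 * l = l ^ 5 / 2 := by ring
  have e4 : l * (S - 16 * l) = S * l - 16 * l ^ 2 := by ring
  have h9 : (1 : ℝ) ≤ l ^ 2 := by nlinarith
  rw [e1] at h1
  rw [e2] at h2
  rw [e3] at h5
  rw [e4] at h3
  linarith

/-- powers of logarithms -/
lemma ev_log (n : ℕ) (s K : ℝ) (hs : 0 < s) (hK : 0 < K) :
    ∀ᶠ x : ℝ in atTop, log x ^ n ≤ K * x ^ s := by
  have h := (isLittleO_log_rpow_rpow_atTop (n : ℝ) hs).bound hK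
  filter_upwards [h, eventually_ge_atTop 1] with x hx h1
  have h2 : 0 ≤ log x := log_nonneg h1
  rw [rpow_natCast, norm_of_nonneg (by positivity), norm_of_nonneg (by positivity)] at hx
  exact hx

theorem t_PARAM : Pool.Agent.D0H56.MD.S_PARAM := by
  intro δ c hδ hc
  obtain ⟨e, he0, heδ, he5⟩ : ∃ e : ℝ, 0 ≤ e ∧ δ ≤ e ∧ e < 1 / 5 :=
    ⟨max δ 0, le_max_right _ _, le_max_left _ _, max_lt hδ (by norm_num)⟩
  obtain ⟨γ, hγe, hγ5⟩ : ∃ γ : ℝ, e < γ ∧ γ < 1 / 5 := exists_between he5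
  have hγ0 : 0 < γ := lt_of_le_of_lt he0 hγe
  obtain ⟨l₀, hl₀⟩ := eventually_atTop.1 ev_l
  have f0 : ∀ᶠ x : ℝ in atTop, l₀ ≤ log x := tendsto_log_atTop.eventually_ge_atTop _
  have f1 := ev_log 8 (1 - 5 * γ) (c / 16) (by linarith) (by positivity)
  have f2 := ev_log 12 (γ - e) (1 / (200 * 2 ^ 12)) (by linarith) (by positivity)
  have f3 : ∀ᶠ x : ℝ in atTop, 2 ≤ x ^ γ := (tendsto_rpow_atTop hγ0).eventually_ge_atTop _
  have f4 : ∀ᶠ x : ℝ in atTop, 2 ≤ x ^ (1 - 2 * γ) :=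
    (tendsto_rpow_atTop (by linarith)).eventually_ge_atTop _
  have F := tendsto_natCast_atTop_atTop.eventually
    (f0.and (f1.and (f2.and (f3.and (f4.and (eventually_ge_atTop (2 : ℝ)))))))
  obtain ⟨d₀, hd₀⟩ := eventually_atTop.1 F
  refine ⟨max d₀ 2, le_max_right _ _, ?_⟩
  intro d D hd hdD hD
  obtain ⟨g0, g1, g2, g3, g4, g5⟩ := hd₀ d (le_trans (le_max_left _ _) hd)
  have hdp : (0 : ℝ) < d := by linarith
  have hdD' : (d : ℝ) ≤ D := by exact_mod_cast hdD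
  have hDp : (0 : ℝ) < D := by linarith
  have hll : log (d : ℝ) ≤ log D := log_le_log hdp hdD'
  obtain ⟨hl, hl'⟩ := hl₀ (log D) (g0.trans hll)
  obtain ⟨hL, -⟩ := hl₀ (log d) g0
  have hlL : log (D : ℝ) ≤ 2 * log d := by
    have := log_le_log hDp hD
    rw [log_rpow hdp] at this
    nlinarith
  set l := log (D : ℝ) with hldef
  set L := log (d : ℝ) with hLdef
  have hlp : 0 < l := by linarith
  have h1d : (1 : ℝ) ≤ d := by linarith
  -- parameters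
  obtain ⟨X, hX⟩ : ∃ X : ℕ, X = ⌊l ^ 4⌋₊ := ⟨_, rfl⟩
  obtain ⟨T, hT⟩ : ∃ T : ℕ, T = ⌈l⌉₊ := ⟨_, rfl⟩
  obtain ⟨U, hU⟩ : ∃ U : ℕ, U = ⌊(d : ℝ) ^ γ⌋₊ := ⟨_, rfl⟩
  obtain ⟨hX3, hX1, hθ⟩ := theta_l l hl hl' X hX
  have hT1 : l ≤ T := by rw [hT]; exact Nat.le_ceil _
  have hT2 : (T : ℝ) ≤ l + 1 := by rw [hT]; exact (Nat.ceil_lt_add_one hlp.le).le
  have hU1 : (U : ℝ) ≤ (d : ℝ) ^ γ := by rw [hU]; exact Nat.floor_le (by positivity)
  have hU2 : (d : ℝ) ^ γ - 1 ≤ U := by rw [hU]; exact (Nat.sub_one_lt_floor _).le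
  have hU3 : 2 ≤ U := by rw [hU]; exact Nat.le_floor (by exact_mod_cast g3)
  have hU3' : (2 : ℝ) ≤ U := by exact_mod_cast hU3
  have hU4 : (d : ℝ) ^ γ / 2 ≤ U := by linarith
  refine ⟨U, T, X, hU3, ?_, by omega, ?_, ?_⟩
  · have : (1 : ℝ) ≤ T := by linarith
    exact_mod_cast this
  · -- the first inequality
    have a1 : (X : ℝ) ≤ (2 * L) ^ 4 := hX1.trans (pow_le_pow_left₀ hlp.le hlL 4)
    have a2 : (U : ℝ) ^ 5 ≤ ((d : ℝ) ^ γ) ^ 5 := pow_le_pow_left₀ (by linarith) hU1 5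
    have a3 : log (2 * (U : ℝ) ^ 2) ≤ L := by
      apply log_le_log (by positivity)
      have b1 : (U : ℝ) ^ 2 ≤ ((d : ℝ) ^ γ) ^ 2 := pow_le_pow_left₀ (by linarith) hU1 2
      have b2 : ((d : ℝ) ^ γ) ^ 2 = (d : ℝ) ^ (2 * γ) := by
        rw [← rpow_natCast, ← rpow_mul hdp.le]; congr 1; push_cast; ring
      have b3 : (d : ℝ) ^ (1 - 2 * γ) * (d : ℝ) ^ (2 * γ) = d := by
        rw [← rpow_add hdp, sub_add_cancel, rpow_one]
      have b4 : 0 ≤ (d : ℝ) ^ (2 * γ) := by positivity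
      nlinarith
    have a4 : 0 ≤ log (2 * (U : ℝ) ^ 2) := log_nonneg (by nlinarith)
    have a5 : log (2 * (U : ℝ) ^ 2) ^ 4 ≤ L ^ 4 := pow_le_pow_left₀ a4 a3 4
    have a6 : ((d : ℝ) ^ γ) ^ 5 = (d : ℝ) ^ (5 * γ) := by
      rw [← rpow_natCast, ← rpow_mul hdp.le]; congr 1; push_cast; ring
    have a7 : (d : ℝ) ^ (1 - 5 * γ) * (d : ℝ) ^ (5 * γ) = d := by
      rw [← rpow_add hdp, sub_add_cancel, rpow_one]
    calc (X : ℝ) * (U : ℝ) ^ 5 * log (2 * (U : ℝ) ^ 2) ^ 4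
        ≤ (2 * L) ^ 4 * ((d : ℝ) ^ γ) ^ 5 * L ^ 4 := by
          apply mul_le_mul (mul_le_mul a1 a2 (by positivity) (by positivity)) a5
            (by positivity) (by positivity)
      _ = 16 * L ^ 8 * (d : ℝ) ^ (5 * γ) := by rw [a6]; ring
      _ ≤ 16 * (c / 16 * (d : ℝ) ^ (1 - 5 * γ)) * (d : ℝ) ^ (5 * γ) := by
          apply mul_le_mul_of_nonneg_right _ (by positivity)
          linarith
      _ = c * ((d : ℝ) ^ (1 - 5 * γ) * (d : ℝ) ^ (5 * γ)) := by ring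
      _ = c * d := by rw [a7]
  · intro P hP h2 N hN
    have b1 := theta_P X D hX3 P hP h2
    have b2 := card_P X P hP
    have b3 := card_P' X P hP
    have b3' : (P.card : ℝ) ≤ X := by exact_mod_cast b3
    have b4 := sum_P X P hP
    have hS : l ^ 4 / 2 ≤ ∑ p ∈ P, log (p : ℝ) := hθ.trans b1
    have h4 : l * 1000000 ≤ l ^ 4 := by
      have : (100 : ℝ) ^ 3 ≤ l ^ 3 := pow_le_pow_left₀ (by norm_num) hl 3
      calc l * 1000000 = l * 100 ^ 3 := by norm_num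
        _ ≤ l * l ^ 3 := mul_le_mul_of_nonneg_left this hlp.le
        _ = l ^ 4 := by ring
    -- second factor of `N`
    have c1 : (4 * T + 2 * P.card + 1 : ℝ) ≤ 8 * l ^ 4 := by linarith
    have c2 : ((2 * D / U : ℕ) : ℝ) ≤ 2 * D / U := by
      have := @Nat.cast_div_le ℝ _ _ _ (2 * D) U
      refine this.trans (le_of_eq ?_)
      push_cast
      rfl
    have c3 : (2 * D / U : ℝ) ≤ 4 * D / (d : ℝ) ^ γ := by
      rw [div_le_div_iff₀ (by linarith) (by positivity)]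
      nlinarith
    have c4 : (2 * D / U : ℝ) ≤ 2 * D := by
      apply div_le_self (by positivity)
      linarith
    have hNr : (N : ℝ) = (((2 * D / U : ℕ) : ℝ) + 2) * (4 * T + 2 * P.card + 1) := by
      rw [hN]; push_cast; ring
    have hNp : (0 : ℝ) < N := by
      rw [hNr]; positivity
    have hN1 : (N : ℝ) ≤ D * (32 * l ^ 4) := by
      rw [hNr]
      calc (((2 * D / U : ℕ) : ℝ) + 2) * (4 * T + 2 * P.card + 1)
          ≤ (4 * D) * (8 * l ^ 4) := by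
            apply mul_le_mul _ c1 (by positivity) (by positivity)
            linarith
        _ = D * (32 * l ^ 4) := by ring
    have hN2 : log (N : ℝ) ≤ 2 * l := by
      have := log_le_log hNp hN1
      rw [log_mul hDp.ne' (by positivity)] at this
      linarith
    have hN3 : (N : ℝ) / d ≤ 6 * (d : ℝ) ^ (e - γ) * (8 * l ^ 4) := by
      rw [div_le_iff₀ hdp, hNr]
      have d1 : (D : ℝ) ≤ (d : ℝ) ^ (1 + e) :=
        hD.trans (rpow_le_rpow_of_exponent_le h1d (by linarith))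
      have d2 : 4 * D / (d : ℝ) ^ γ ≤ 4 * (d : ℝ) ^ (1 + e - γ) := by
        rw [rpow_sub hdp (1 + e) γ, ← mul_div_assoc]
        apply div_le_div_of_nonneg_right _ (by positivity)
        linarith
      have d3 : (1 : ℝ) ≤ (d : ℝ) ^ (1 + e - γ) := one_le_rpow h1d (by linarith)
      have d4 : (d : ℝ) ^ (1 + e - γ) = (d : ℝ) ^ (e - γ) * d := by
        rw [show 1 + e - γ = (e - γ) + 1 by ring, rpow_add hdp, rpow_one]
      calc (((2 * D / U : ℕ) : ℝ) + 2) * (4 * T + 2 * P.card + 1)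
          ≤ (6 * (d : ℝ) ^ (1 + e - γ)) * (8 * l ^ 4) := by
            apply mul_le_mul _ c1 (by positivity) (by positivity)
            linarith
        _ = 6 * (d : ℝ) ^ (e - γ) * (8 * l ^ 4) * d := by rw [d4]; ring
    have hTs : (T : ℝ) ^ 2 + ∑ p ∈ P, (p : ℝ) ≤ 2 * l ^ 8 := by
      have t1 : (T : ℝ) ^ 2 ≤ (2 * l) ^ 2 := pow_le_pow_left₀ (by linarith) (by linarith) 2
      have t2 : (X : ℝ) * X ≤ l ^ 4 * l ^ 4 := mul_le_mul hX1 hX1 (by positivity) (by positivity)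
      have t3 : (2 * l) ^ 2 ≤ l ^ 4 * l ^ 4 := by
        calc (2 * l) ^ 2 ≤ (l ^ 4) ^ 2 := pow_le_pow_left₀ (by linarith) (by linarith) 2
          _ = l ^ 4 * l ^ 4 := by ring
      have t4 : l ^ 4 * l ^ 4 = l ^ 8 := by ring
      linarith
    have hTs0 : 0 ≤ (T : ℝ) ^ 2 + ∑ p ∈ P, (p : ℝ) := by positivity
    have hY : 2 * log 2 * ((N : ℝ) / d) * ((T : ℝ) ^ 2 + ∑ p ∈ P, (p : ℝ)) ≤ 1 := by
      have l2 : log 2 ≤ (0.7 : ℝ) := by linarith [log_two_lt_d9]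
      have l20 : 0 < log (2 : ℝ) := log_pos one_lt_two
      have q : l ^ 12 ≤ (2 * L) ^ 12 := pow_le_pow_left₀ hlp.le hlL 12
      have q1 : (d : ℝ) ^ (e - γ) * (d : ℝ) ^ (γ - e) = 1 := by
        rw [← rpow_add hdp]; norm_num
      have q2 : 0 < (d : ℝ) ^ (e - γ) := by positivity
      calc 2 * log 2 * ((N : ℝ) / d) * ((T : ℝ) ^ 2 + ∑ p ∈ P, (p : ℝ))
          ≤ 2 * 0.7 * (6 * (d : ℝ) ^ (e - γ) * (8 * l ^ 4)) * (2 * l ^ 8) := by
            apply mul_le_mul _ hTs hTs0 (by positivity)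
            apply mul_le_mul _ hN3 (by positivity) (by norm_num)
            linarith
        _ = 134.4 * (d : ℝ) ^ (e - γ) * l ^ 12 := by ring
        _ ≤ 200 * (d : ℝ) ^ (e - γ) * (2 * L) ^ 12 := by
            apply mul_le_mul _ q (by positivity) (by positivity)
            linarith
        _ = 200 * 2 ^ 12 * (d : ℝ) ^ (e - γ) * L ^ 12 := by ring
        _ ≤ 200 * 2 ^ 12 * (d : ℝ) ^ (e - γ) *
            (1 / (200 * 2 ^ 12) * (d : ℝ) ^ (γ - e)) := by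
            apply mul_le_mul_of_nonneg_left g2 (by positivity)
        _ = (d : ℝ) ^ (e - γ) * (d : ℝ) ^ (γ - e) := by field_simp
        _ = 1 := q1
    have hmain := main_l l (∑ p ∈ P, log (p : ℝ)) P.card T N _ hl hl' hS (by positivity)
      b2 (b3'.trans hX1) hT1 hT2 hN2 hY
    have hA0 : (0 : ℝ) < (T : ℝ) ^ 2 + P.card := by
      have : (0 : ℝ) < T := by linarith
      positivity
    rw [log_mul hDp.ne' hA0.ne']
    exact hmain

end Pool.Agent.D0H37.MD
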